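import Pool.Agent.H978V.M14

/-!
# Every point of every rational great circle of `SU(2)`: V-word length `(5 + δ) log_5 (1/ε) + C`, and less near the rational points

A rational great circle of `SU(2)` is the set of the matrices `V R`, where `V` is a fixed matrix with integral quaternion
coordinates `(a, b, c, d)` up to a positive factor, and `R` runs over the rotations about the integral axis `(x, y, z)`.
Its rational points are the `W = V R` with `R` proportional to `p I + i q (x X + y Y + z Z)`, `p, q` integers.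

For every `δ > 0` there are `A, C` such that for all integers `a, b, c, d` (not all zero), `x, y, z` (not all zero), every angle `θ` and
every `ε` in `(0,1)` the point `U = V R_θ` has a word in the V-basis within `ε`, of length at most
`(5 + δ) log_5 (1/ε) + A log_5 ((a² + b² + c² + d²)(x² + y² + z²)) + C`.  Moreover, for every rational point `W` of the circle, of
height `M = p² + q² (x² + y² + z²)`, the coefficient `5` improves to `4 + log_5 (M max(‖U - W‖/ε, 1)²) / log_5 (1/ε)` when this is
smaller: it decreases to `4 + δ` at the rational points.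

The proof uses the count of the integral vectors of squared length `n = N(v) 5^(4k) - m²` (Siegel's theorem) with Linnik's estimate for
pairs of such vectors, a gap for the gates on the product of the 2-sphere and the projective line modulo `N(v)`, uniform in `N(v)`, and
an estimate of the number of integral quaternions of norm `25^k` which nearly commute with the axis and fix a line modulo `N(v)`.
-/

set_option autoImplicit false

namespace Pool.Agent.Results.MP_06cce2_nt.CircleFive

open Pool.Agent.H978V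
open scoped Matrix.Norms.L2Operator

/-- The point of `SU(2)` with the integral quaternion coordinates `(a, b, c, d)` up to a positive factor:
`(a I + i (b X + c Y + d Z)) / √(a² + b² + c² + d²)`. -/
noncomputable def Urat (a b c d : ℤ) : Matrix (Fin 2) (Fin 2) ℂ :=
  (1 / (Real.sqrt ((a : ℝ) ^ 2 + b ^ 2 + c ^ 2 + d ^ 2) : ℂ)) •
    ((a : ℂ) • 1 + Complex.I • ((b : ℂ) • pauli 0 + (c : ℂ) • pauli 1 + (d : ℂ) • pauli 2))

/-- The rotation `cos θ I + i sin θ (x X + y Y + z Z) / √(x² + y² + z²)`. -/
noncomputable def Urot (x y z : ℤ) (θ : ℝ) : Matrix (Fin 2) (Fin 2) ℂ :=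
  (Real.cos θ : ℂ) • 1 + (Complex.I * (Real.sin θ : ℂ) / (Real.sqrt ((x : ℝ) ^ 2 + y ^ 2 + z ^ 2) : ℂ)) •
    ((x : ℂ) • pauli 0 + (y : ℂ) • pauli 1 + (z : ℂ) • pauli 2)

/-- For every `δ > 0` there are `A` and `C` such that, for all integers `a, b, c, d` not all zero, `x, y, z` not all zero and `p, q` not
both zero, all real `θ` and all `ε` in `(0,1)`: with `V = Urat a b c d`, `U = V * Urot x y z θ`, `W = V * Urat p (q x) (q y) (q z)` and
`M = p² + q² (x² + y² + z²)` there is a word in the V-basis within `ε` of `U` of length at most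
`(6 + δ) log_5 (1/ε) + log_5 (min(ε, M max(‖U - W‖, ε)²)) + A log_5 ((a² + b² + c² + d²)(x² + y² + z²)) + C`. -/
theorem result (δ : ℝ) (hδ : 0 < δ) : ∃ A C : ℝ, ∀ a b c d x y z p q : ℤ,
    ¬ (a = 0 ∧ b = 0 ∧ c = 0 ∧ d = 0) → ¬ (x = 0 ∧ y = 0 ∧ z = 0) → ¬ (p = 0 ∧ q = 0) →
    ∀ θ ε : ℝ, 0 < ε → ε < 1 → ∃ w : List (Matrix (Fin 2) (Fin 2) ℂ), (∀ g ∈ w, g ∈ Vset) ∧
      (w.length : ℝ) ≤ (6 + δ) * Real.logb 5 (1 / ε) +
        Real.logb 5 (min ε (((p : ℝ) ^ 2 + q ^ 2 * (x ^ 2 + y ^ 2 + z ^ 2)) *
          (max ‖Urat a b c d * Urot x y z θ - Urat a b c d * Urat p (q * x) (q * y) (q * z)‖ ε) ^ 2)) +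
        A * Real.logb 5 (((a : ℝ) ^ 2 + b ^ 2 + c ^ 2 + d ^ 2) * ((x : ℝ) ^ 2 + y ^ 2 + z ^ 2)) + C ∧
      ‖Urat a b c d * Urot x y z θ - w.prod‖ < ε :=
  circ_matrix δ hδ

end Pool.Agent.Results.MP_06cce2_nt.CircleFive
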