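import Pool.Agent.H978V.P9

/-!
# The profile of the V-word length near a rational point of `SU(2)`: `max (3k, 2(j+k)) log_5 2` at distance `2^(-j)`, precision `2^(-k)`

Let `V` be a point of `SU(2)` with integral quaternion coordinates `(a, b, c, d)` up to a positive factor, and
`Rot s n = cos s I + i sin s (n₀ X + n₁ Y + n₂ Z)`, `n` on the unit sphere of `ℝ³`; the point `V * Rot (s / 2^j) n` is at distance
`2 sin (s / 2^(j+1))` from `V`.

(A) For every `s` in `(0, π)` and almost every direction `n`: for every `δ > 0` and all large `k`, for all `j ≤ k` the point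
`V * Rot (s / 2^j) n` has a word in the V-basis within `2^(-k)` of length at most `(max (3k) (2(j+k)) + δ k) log_5 2`, and for `2 j ≤ k`
every word within `2^(-k)` has length at least `(3 - δ) k log_5 2`.
(B) For almost every `s` in `(0, π)` and every `n`: for every `δ > 0` and all large `k`, for `k ≤ 2 j ≤ 2 k` every word other than `V`
itself within `2^(-k)` of `V * Rot (s / 2^j) n` has length at least `(2 (j + k) - δ k) log_5 2`.

So for almost every direction the length is `(3 + o(1)) log_5 (1/ε)` down to the distance `√ε` from every rational point, uniformly in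
the distance, and between the distances `√ε` and `ε` it grows like `2 log_5 (1/ε) + 2 log_5 (1/distance)`, from `3 log_5 (1/ε)` to the
worst case `4 log_5 (1/ε)`.  With `j = 0`, `V = I` this contains the average case in every conjugacy class of `SU(2)`.

The proof is elementary apart from Siegel's theorem on `L(1, χ)` and Ridout's theorem: a second moment for the integral quaternions of norm
`5^l` near a sphere about the point `V`, with Linnik's lemma for pairs of vectors of different norms, and a spectral gap of the gates on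
the product of the two-sphere and the vectors modulo the norm of `V`.
-/

set_option autoImplicit false

namespace Pool.Agent.Results.MP_06cce2_nt.HoleProfile

open Pool.Agent.H978V MeasureTheory
open scoped Matrix.Norms.L2Operator

/-- The point of `SU(2)` with the integral quaternion coordinates `(a, b, c, d)` up to a positive factor:
`(a I + i (b X + c Y + d Z)) / √(a² + b² + c² + d²)`. -/
noncomputable def Urat (a b c d : ℤ) : Matrix (Fin 2) (Fin 2) ℂ :=
  (1 / (Real.sqrt ((a : ℝ) ^ 2 + b ^ 2 + c ^ 2 + d ^ 2) : ℂ)) •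
    ((a : ℂ) • 1 + Complex.I • ((b : ℂ) • pauli 0 + (c : ℂ) • pauli 1 + (d : ℂ) • pauli 2))

/-- The rotation `cos s I + i sin s (n₀ X + n₁ Y + n₂ Z)`. -/
noncomputable def Rot (s : ℝ) (n : EuclideanSpace ℝ (Fin 3)) : Matrix (Fin 2) (Fin 2) ℂ :=
  (Real.cos s : ℂ) • 1 + ((Real.sin s : ℝ) * Complex.I : ℂ) •
    ((n 0 : ℂ) • pauli 0 + (n 1 : ℂ) • pauli 1 + (n 2 : ℂ) • pauli 2)

/-- Let `V = Urat a b c d` with integers `a, b, c, d` not all zero.
(A) For every `s` in `(0, π)` and almost every unit vector `n` (surface measure), for every `δ > 0` and all large `k`, for all `j ≤ k`: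
some word in the V-basis within `2^(-k)` of `U = V * Rot (s / 2^j) n` has length at most `(max (3k) (2(j+k)) + δ k) log_5 2`, and if
`2 j ≤ k`, every word within `2^(-k)` of `U` has length at least `(3 - δ) k log_5 2`.
(B) For almost every `s` in `(0, π)`, for every unit vector `n`, every `δ > 0` and all large `k`, for all `j` with `k ≤ 2 j`, `j ≤ k`:
every word other than `V` within `2^(-k)` of `U = V * Rot (s / 2^j) n` has length at least `(2 (j + k) - δ k) log_5 2`. -/
theorem result (a b c d : ℤ) (h0 : ¬ (a = 0 ∧ b = 0 ∧ c = 0 ∧ d = 0)) :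
    (∀ s : ℝ, 0 < s → s < Real.pi →
      ∀ᵐ n : Metric.sphere (0 : EuclideanSpace ℝ (Fin 3)) 1
        ∂((volume : Measure (EuclideanSpace ℝ (Fin 3))).toSphere),
      ∀ δ : ℝ, 0 < δ → ∃ k₀ : ℕ, ∀ k : ℕ, k₀ ≤ k → ∀ j : ℕ, j ≤ k →
      (∃ w : List (Matrix (Fin 2) (Fin 2) ℂ), (∀ g ∈ w, g ∈ Vset) ∧
        (w.length : ℝ) ≤ (max (3 * (k : ℝ)) (2 * (j + k)) + δ * k) * Real.logb 5 2 ∧
        ‖Urat a b c d * Rot (s / 2 ^ j) n - w.prod‖ < 1 / 2 ^ k) ∧
      (2 * j ≤ k → ∀ w : List (Matrix (Fin 2) (Fin 2) ℂ), (∀ g ∈ w, g ∈ Vset) →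
        ‖Urat a b c d * Rot (s / 2 ^ j) n - w.prod‖ < 1 / 2 ^ k →
        (3 - δ) * k * Real.logb 5 2 ≤ w.length)) ∧
    (∀ᵐ s : ℝ ∂(volume.restrict (Set.Ioo 0 Real.pi)), ∀ n : EuclideanSpace ℝ (Fin 3), ‖n‖ = 1 →
      ∀ δ : ℝ, 0 < δ → ∃ k₀ : ℕ, ∀ k : ℕ, k₀ ≤ k → ∀ j : ℕ, k ≤ 2 * j → j ≤ k →
      ∀ w : List (Matrix (Fin 2) (Fin 2) ℂ), (∀ g ∈ w, g ∈ Vset) → w.prod ≠ Urat a b c d →
        ‖Urat a b c d * Rot (s / 2 ^ j) n - w.prod‖ < 1 / 2 ^ k →
        (2 * (j + k) - δ * k) * Real.logb 5 2 ≤ w.length) :=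
  ⟨fun s hs hs' => profile_matrix_dir a b c d h0 s hs hs', profile_matrix_rad a b c d h0⟩

end Pool.Agent.Results.MP_06cce2_nt.HoleProfile
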