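import Pool.Agent.H978V.K14
import Pool.Agent.H978V.L13
import Pool.Agent.H978V.L14

/-!
# Near every rational point of `SU(2)` the V-word length is `(4 + o(1)) log_5 (1/ε)`, with upper bound `4 log_5 (1/ε) + C`

A rational point is a matrix `V = (a I + i (b X + c Y + d Z)) / √(a² + b² + c² + d²)` with integers `a, b, c, d`, not all zero.
For each of them and each `K` there is `C` such that for all `ε` in `(0,1)` every `U` in `SU(2)` with `‖U - V‖ ≤ K ε` has a word in
the V-basis of length at most `4 log_5 (1/ε) + C` within `ε`; and for every `η > 0` and all small `ε` every word other than `V`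
itself within `ε` of such a `U` has length at least `(4 - η) log_5 (1/ε)`.

Upper bound: Linnik's ergodic method for sums of three squares (equidistribution of the directions of the integral vectors of squared
length `n = N(v) 5^(4k) - m²` together with a residue condition modulo `N(v)`), the spectral gap of the six gates on functions on the
product of the 2-sphere and the projective line modulo `N(v)`.  Lower bound: Ridout's theorem.
-/

set_option autoImplicit false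

namespace Pool.Agent.Results.MP_06cce2_nt.HolesFour

open Pool.Agent.H978V
open scoped Quaternion Matrix.Norms.L2Operator

/-- The point of `SU(2)` with the integral quaternion coordinates `(a, b, c, d)` up to a positive factor:
`(a I + i (b X + c Y + d Z)) / √(a² + b² + c² + d²)`. -/
noncomputable def Urat (a b c d : ℤ) : Matrix (Fin 2) (Fin 2) ℂ :=
  (1 / (Real.sqrt ((a : ℝ) ^ 2 + b ^ 2 + c ^ 2 + d ^ 2) : ℂ)) •
    ((a : ℂ) • 1 + Complex.I • ((b : ℂ) • pauli 0 + (c : ℂ) • pauli 1 + (d : ℂ) • pauli 2))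

theorem vh_coord (v : ℍ[ℤ]) :
    (vh v).re = (1 / Real.sqrt ((Quaternion.normSq v : ℤ) : ℝ)) * v.re ∧
    (vh v).imI = (1 / Real.sqrt ((Quaternion.normSq v : ℤ) : ℝ)) * v.imI ∧
    (vh v).imJ = (1 / Real.sqrt ((Quaternion.normSq v : ℤ) : ℝ)) * v.imJ ∧
    (vh v).imK = (1 / Real.sqrt ((Quaternion.normSq v : ℤ) : ℝ)) * v.imK := by
  refine ⟨?_, ?_, ?_, ?_⟩
  · rw [vh, Quaternion.re_smul]; rfl
  · rw [vh, Quaternion.imI_smul]; rfl
  · rw [vh, Quaternion.imJ_smul]; rfl
  · rw [vh, Quaternion.imK_smul]; rfl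

theorem Urat_eq (a b c d : ℤ) :
    let v : ℍ[ℤ] := ⟨a, d, c, b⟩
    Urat a b c d = Uquat (vh v).re (vh v).imI (vh v).imJ (vh v).imK := by
  intro v
  have h : (((Quaternion.normSq v : ℤ) : ℝ)) = (a : ℝ) ^ 2 + b ^ 2 + c ^ 2 + d ^ 2 := by
    rw [Quaternion.normSq_def']
    push_cast
    simp only [v]
    ring
  obtain ⟨h1, h2, h3, h4⟩ := vh_coord v
  rw [h1, h2, h3, h4, h]
  unfold Urat Uquat
  set s := Real.sqrt ((a : ℝ) ^ 2 + b ^ 2 + c ^ 2 + d ^ 2)
  simp only [v]
  push_cast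
  module

/-- For integers `a, b, c, d`, not all zero, let `V = (a I + i (b X + c Y + d Z)) / √(a² + b² + c² + d²)`, and let `K` be real.
With some constant `C`, for all `ε` in `(0,1)` every `U` in `SU(2)` with `‖U - V‖ ≤ K ε` has a word in the V-basis of length at most
`4 log_5 (1/ε) + C` within `ε`; and for every `η > 0` and all sufficiently small `ε > 0`, for every such `U` every word within `ε` of
`U`, other than `V` itself, has length at least `(4 - η) log_5 (1/ε)`. -/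
theorem result (a b c d : ℤ) (h0 : ¬ (a = 0 ∧ b = 0 ∧ c = 0 ∧ d = 0)) (K : ℝ) :
    (∃ C : ℝ, ∀ ε : ℝ, 0 < ε → ε < 1 →
      ∀ U : Matrix (Fin 2) (Fin 2) ℂ, U ∈ Matrix.specialUnitaryGroup (Fin 2) ℂ → ‖U - Urat a b c d‖ ≤ K * ε →
      ∃ w : List (Matrix (Fin 2) (Fin 2) ℂ), (∀ g ∈ w, g ∈ Vset) ∧
        (w.length : ℝ) ≤ 4 * Real.logb 5 (1 / ε) + C ∧ ‖U - w.prod‖ < ε) ∧
    (∀ η : ℝ, 0 < η → ∃ ε₀ : ℝ, 0 < ε₀ ∧ ∀ ε : ℝ, 0 < ε → ε < ε₀ →
      ∀ U : Matrix (Fin 2) (Fin 2) ℂ, U ∈ Matrix.specialUnitaryGroup (Fin 2) ℂ → ‖U - Urat a b c d‖ ≤ K * ε →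
      ∀ w : List (Matrix (Fin 2) (Fin 2) ℂ), (∀ g ∈ w, g ∈ Vset) → w.prod ≠ Urat a b c d →
        ‖U - w.prod‖ < ε → (4 - η) * Real.logb 5 (1 / ε) ≤ w.length) := by
  set v : ℍ[ℤ] := ⟨a, d, c, b⟩ with hv
  have hv0 : v ≠ 0 := by
    intro h
    apply h0
    have h1 := congrArg (fun q : ℍ[ℤ] => q.re) h
    have h2 := congrArg (fun q : ℍ[ℤ] => q.imI) h
    have h3 := congrArg (fun q : ℍ[ℤ] => q.imJ) h
    have h4 := congrArg (fun q : ℍ[ℤ] => q.imK) h
    simp [hv] at h1 h2 h3 h4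
    exact ⟨h1, h4, h3, h2⟩
  have hU := Urat_eq a b c d
  simp only [← hv] at hU
  rw [hU]
  constructor
  · obtain ⟨C, hC⟩ := hole_upper v hv0 K
    refine ⟨C, fun ε hε hε1 U hUs hUK => ?_⟩
    obtain ⟨t, ht, rfl⟩ := su2_quat U hUs
    rw [uquat_norm] at hUK
    obtain ⟨L, q, hq1, hq2, hL, hqv⟩ := hC ε hε hε1 t ht hUK
    obtain ⟨w, hw1, hw2, hw3⟩ := word_of_quat L q hq1 hq2
    refine ⟨w, hw1, by rw [hw2]; exact hL, ?_⟩
    have h5 : ‖Uquat t.re t.imI t.imJ t.imK - w.prod‖ ^ 2 < ε ^ 2 := by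
      rw [hw3, ← qh_dist]
      exact pow_lt_pow_left₀ hqv (norm_nonneg _) (by norm_num)
    exact lt_of_pow_lt_pow_left₀ 2 hε.le h5
  · intro η hη
    obtain ⟨ε₀, he0, hlow⟩ := hole_lower v hv0 K η hη
    refine ⟨ε₀, he0, fun ε hε hε' U hUs hUK w hw hne hd => ?_⟩
    obtain ⟨t, ht, rfl⟩ := su2_quat U hUs
    rw [uquat_norm] at hUK
    obtain ⟨q, -, hq2, hq3⟩ := quat_of_word w hw
    refine hlow ε hε hε' t hUK _ q hq2 ?_ ?_
    · have h5 : ‖t - qh w.length q‖ ^ 2 < ε ^ 2 := by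
        rw [qh_dist, ← hq3]
        exact pow_lt_pow_left₀ hd (norm_nonneg _) (by norm_num)
      exact lt_of_pow_lt_pow_left₀ 2 hε.le h5
    · intro h
      apply hne
      have h6 := hq3 (vh v).re (vh v).imI (vh v).imJ (vh v).imK
      rw [← qh_dist, h, sub_self, norm_zero] at h6
      have h7 := pow_eq_zero_iff (n := 2) (by norm_num) |>.1 (h6.trans (by norm_num))
      rw [norm_eq_zero, sub_eq_zero] at h7
      exact h7.symm

end Pool.Agent.Results.MP_06cce2_nt.HolesFour
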