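import Pool.Agent.H978V.E7

/-!
# Near the rational points of `SU(2)`, uniformly in the point: V-word length `4 log_5 (1/ε) + (7/3) log_5 y + δ log_5 (1/ε) + C`

A rational point is a matrix `V = (a I + i (b X + c Y + d Z)) / √(a² + b² + c² + d²)` with integers `a, b, c, d`, not all zero; its
height is `a² + b² + c² + d²`.  Let `y = (a² + b² + c² + d²) max(‖U - V‖/ε, 1)²`.  For every `δ > 0` there is one constant `C` such that
for every rational point `V`, every `ε` in `(0,1)` and every `U` in `SU(2)` with `y ≤ 1/ε` there is a word in the V-basis within `ε` of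
`U`, of length at most `(4 + δ) log_5 (1/ε) + (7/3) log_5 y + C`.

For `y` bounded this is the exponent `4`, at a distance `O(ε)` from rational points of bounded height.  The exponent stays below the
general exponent `6` of Lubotzky, Phillips and Sarnak as long as `y ≤ ε^(-6/7 + η)`, for example in the balls of radius `ε^(4/7 + η)`
about a fixed rational point, and in the balls of radius `ε` about all the rational points of height at most `ε^(-6/7 + η)`.

The proof counts the integral vectors of squared length `n = N(v) 5^(4k) - m²` (Siegel's theorem), compares their directions with the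
given given direction by an `L²` estimate for pairs (Linnik), and uses the bound `5^(5/6 + δ) + 5^(1/6 - δ)` for the eigenvalues of the six
gates on the functions on the product of the 2-sphere and the vectors modulo `D` which are new at level `D`, `D` large, with a bound
for the supremum norm of the eigenfunctions of larger eigenvalue, which come from bounded levels.
-/

set_option autoImplicit false

namespace Pool.Agent.Results.MP_06cce2_nt.NearRational

open Pool.Agent.H978V
open scoped Matrix.Norms.L2Operator

/-- The point of `SU(2)` with the integral quaternion coordinates `(a, b, c, d)` up to a positive factor: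
`(a I + i (b X + c Y + d Z)) / √(a² + b² + c² + d²)`. -/
noncomputable def Urat (a b c d : ℤ) : Matrix (Fin 2) (Fin 2) ℂ :=
  (1 / (Real.sqrt ((a : ℝ) ^ 2 + b ^ 2 + c ^ 2 + d ^ 2) : ℂ)) •
    ((a : ℂ) • 1 + Complex.I • ((b : ℂ) • pauli 0 + (c : ℂ) • pauli 1 + (d : ℂ) • pauli 2))

/-- For every `δ > 0` there is `C` such that, for all integers `a, b, c, d` not all zero, all `U` in `SU(2)` and all `ε` in `(0,1)`,
with `V = Urat a b c d` and `y = (a² + b² + c² + d²) max(‖U - V‖/ε, 1)²`: if `y ≤ 1/ε` then some word in the V-basis within `ε` of `U`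
has length at most `(4 + δ) log_5 (1/ε) + (7/3) log_5 y + C`. -/
theorem result (δ : ℝ) (hδ : 0 < δ) : ∃ C : ℝ, ∀ a b c d : ℤ, ¬ (a = 0 ∧ b = 0 ∧ c = 0 ∧ d = 0) →
    ∀ U : Matrix (Fin 2) (Fin 2) ℂ, U ∈ Matrix.specialUnitaryGroup (Fin 2) ℂ → ∀ ε : ℝ, 0 < ε → ε < 1 →
    ((a : ℝ) ^ 2 + b ^ 2 + c ^ 2 + d ^ 2) * (max (‖U - Urat a b c d‖ / ε) 1) ^ 2 ≤ 1 / ε →
    ∃ w : List (Matrix (Fin 2) (Fin 2) ℂ), (∀ g ∈ w, g ∈ Vset) ∧
      (w.length : ℝ) ≤ (4 + δ) * Real.logb 5 (1 / ε) +
        7 / 3 * Real.logb 5 (((a : ℝ) ^ 2 + b ^ 2 + c ^ 2 + d ^ 2) * (max (‖U - Urat a b c d‖ / ε) 1) ^ 2) + C ∧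
      ‖U - w.prod‖ < ε :=
  near_matrix δ hδ

end Pool.Agent.Results.MP_06cce2_nt.NearRational
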